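import Mathlib

/-!
# MP_f0917b_co : `L(2,1)`-labelling number of iterated Mycielski graphs

`λ(M^t(G)) ≤ (2^t - 1)(n + 1) + Δ²` for every finite simple graph `G` of order `n` and maximum
degree `Δ` and every `t ≥ 1`.
-/

set_option linter.all false

namespace Pool.Agent.Results.MP_f0917b_co.IteratedMycielski

open Finset

universe u

/-- `f` is an `L(2,1)`-labelling of `G` with labels in `{0, …, k}`: adjacent vertices get labels
differing by at least `2`, vertices at distance exactly `2` get different labels. -/
def IsL21 {V : Type u} (G : SimpleGraph V) (k : ℕ) (f : V → ℕ) : Prop :=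
  (∀ v, f v ≤ k) ∧
  (∀ u v, G.Adj u v → (f u + 2 ≤ f v ∨ f v + 2 ≤ f u)) ∧
  (∀ u v, G.dist u v = 2 → f u ≠ f v)

/-- The `L(2,1)`-labelling number `λ(G)`. -/
noncomputable def lam {V : Type u} (G : SimpleGraph V) : ℕ := sInf {k | ∃ f, IsL21 G k f}

/-- Adjacency in the Mycielski graph on `V ⊕ V ⊕ Unit`: `inl v` is the vertex `v`,
`inr (inl v)` is its copy `v'`, and `inr (inr ())` is `w`. -/
def mycAdj {V : Type u} (G : SimpleGraph V) : V ⊕ V ⊕ Unit → V ⊕ V ⊕ Unit → Prop
  | Sum.inl x, Sum.inl y => G.Adj x y
  | Sum.inl x, Sum.inr (Sum.inl y) => G.Adj x y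
  | Sum.inr (Sum.inl x), Sum.inl y => G.Adj x y
  | Sum.inr (Sum.inl _), Sum.inr (Sum.inr _) => True
  | Sum.inr (Sum.inr _), Sum.inr (Sum.inl _) => True
  | _, _ => False

/-- The Mycielski graph `M(G)`. -/
def myc {V : Type u} (G : SimpleGraph V) : SimpleGraph (V ⊕ V ⊕ Unit) where
  Adj := mycAdj G
  symm := ⟨by
    rintro (x | x | x) (y | y | y) h <;> simp_all [mycAdj, G.adj_comm]⟩
  loopless := ⟨by
    rintro (x | x | x) h <;> simp_all [mycAdj]⟩

/-- A graph bundled with its vertex type. -/
structure Gr where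
  V : Type u
  G : SimpleGraph V

/-- `M^t(G)`: the `t`-times iterated Mycielski graph. -/
def iter (H : Gr.{u}) : ℕ → Gr.{u}
  | 0 => H
  | t + 1 => ⟨_, myc (iter H t).G⟩

/-! ### Greedy colouring -/

theorem greedy {V : Type u} [Fintype V] [DecidableEq V] (R : V → V → Prop) [DecidableRel R]
    (hs : ∀ x y, R x y → R y x) (D : ℕ) (hD : ∀ x, (univ.filter (fun y => R x y)).card ≤ D)
    (hirr : ∀ x, ¬ R x x) :
    ∃ c : V → ℕ, (∀ v, c v < D + 1) ∧ ∀ x y, R x y → c x ≠ c y := by
  have key : ∀ S : Finset V, ∃ c : V → ℕ, (∀ v, c v < D + 1) ∧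
      ∀ x ∈ S, ∀ y ∈ S, R x y → c x ≠ c y := by
    intro S
    induction S using Finset.induction_on with
    | empty => exact ⟨fun _ => 0, fun _ => Nat.succ_pos _, by simp⟩
    | insert a S ha ih =>
      obtain ⟨c, hc1, hc2⟩ := ih
      have hcard : ((univ.filter (fun y => R a y)).image c).card < (range (D + 1)).card := by
        rw [card_range]
        exact lt_of_le_of_lt card_image_le (Nat.lt_succ_of_le (hD a))
      obtain ⟨q, hq1, hq2⟩ := Finset.exists_mem_notMem_of_card_lt_card hcard
      rw [mem_range] at hq1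
      have hq3 : ∀ y, R a y → c y ≠ q := by
        intro y hy h
        apply hq2
        rw [mem_image]
        exact ⟨y, by simpa using hy, h⟩
      refine ⟨fun v => if v = a then q else c v, ?_, ?_⟩
      · intro v
        by_cases h : v = a
        · simpa [h] using hq1
        · simpa [h] using hc1 v
      · intro x hx y hy hxy
        by_cases h1 : x = a
        · by_cases h2 : y = a
          · subst h1; subst h2; exact absurd hxy (hirr _)
          · subst h1
            simp only [if_true, h2, if_false]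
            exact fun h => hq3 y hxy h.symm
        · by_cases h2 : y = a
          · subst h2
            simp only [if_true, h1, if_false]
            exact fun h => hq3 x (hs _ _ hxy) h
          · simp only [h1, h2, if_false]
            exact hc2 x (by simpa [h1] using hx) y (by simpa [h2] using hy) hxy
  obtain ⟨c, h1, h2⟩ := key univ
  exact ⟨c, h1, fun x y => h2 x (mem_univ _) y (mem_univ _)⟩

/-! ### The exchange argument -/

theorem exists_perm {α : Type*} [Fintype α] [DecidableEq α] (τ : α → α)
    (hτ : ∀ x, τ (τ x) = x) (Bad : α → α → Prop) [DecidableRel Bad]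
    (hs : ∀ x y, Bad x y → Bad y x) (hirr : ∀ x, ¬ Bad x x) (D : ℕ)
    (hD : ∀ x, (univ.filter (fun y => Bad x y)).card ≤ D) (hK : 2 * D < Fintype.card α) :
    ∃ π : Equiv.Perm α, ∀ x, ¬ Bad (π x) (π (τ x)) := by
  obtain ⟨π, -, hπ⟩ := Finset.exists_min_image (univ : Finset (Equiv.Perm α))
    (fun π => (univ.filter (fun x => Bad (π x) (π (τ x)))).card) ⟨1, mem_univ _⟩
  refine ⟨π, ?_⟩
  by_contra hcon
  push Not at hcon
  obtain ⟨a, ha⟩ := hcon
  have hab : τ a ≠ a := by
    intro h
    rw [h] at ha
    exact hirr _ ha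
  -- every position is blocked
  have hblock : ∀ p, p ≠ a → Bad (π a) (π p) ∨ Bad (π (τ a)) (π (τ p)) := by
    intro p hpa
    by_contra hno
    push Not at hno
    obtain ⟨hn1, hn2⟩ := hno
    have hpb : p ≠ τ a := by
      rintro rfl
      exact hn1 ha
    have hmin := hπ (π * Equiv.swap (τ a) p) (mem_univ _)
    have hlt : (univ.filter (fun x => Bad ((π * Equiv.swap (τ a) p) x)
        ((π * Equiv.swap (τ a) p) (τ x)))).card <
        (univ.filter (fun x => Bad (π x) (π (τ x)))).card := by
      apply card_lt_card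
      rw [Finset.ssubset_iff_of_subset]
      · refine ⟨a, by simpa using ha, ?_⟩
        simp only [mem_filter, mem_univ, true_and, Equiv.Perm.coe_mul, Function.comp_apply,
          Equiv.swap_apply_left]
        rw [Equiv.swap_apply_of_ne_of_ne (Ne.symm hab) (Ne.symm hpa)]
        exact hn1
      · intro x hx
        simp only [mem_filter, mem_univ, true_and, Equiv.Perm.coe_mul, Function.comp_apply] at hx ⊢
        have hap : τ p ≠ τ a := fun h => hpa (by rw [← hτ p, h, hτ])
        have hxa : x ≠ a := by
          rintro rfl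
          rw [Equiv.swap_apply_left, Equiv.swap_apply_of_ne_of_ne (Ne.symm hab) (Ne.symm hpa)] at hx
          exact hn1 hx
        have hxb : x ≠ τ a := by
          rintro rfl
          rw [Equiv.swap_apply_left, hτ,
            Equiv.swap_apply_of_ne_of_ne (Ne.symm hab) (Ne.symm hpa)] at hx
          exact hn1 (hs _ _ hx)
        have hxp : x ≠ p := by
          rintro rfl
          rw [Equiv.swap_apply_right] at hx
          by_cases h : τ x = x
          · rw [h, Equiv.swap_apply_right] at hx
            exact hirr _ hx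
          · rw [Equiv.swap_apply_of_ne_of_ne hap h] at hx
            exact hn2 hx
        have hxq : x ≠ τ p := by
          rintro rfl
          rw [hτ, Equiv.swap_apply_right] at hx
          rw [Equiv.swap_apply_of_ne_of_ne hap hxp] at hx
          exact hn2 (hs _ _ hx)
        have h3 : τ x ≠ τ a := fun h => hxa (by rw [← hτ x, h, hτ])
        have h4 : τ x ≠ p := fun h => hxq (by rw [← h, hτ])
        rw [Equiv.swap_apply_of_ne_of_ne hxb hxp, Equiv.swap_apply_of_ne_of_ne h3 h4] at hx
        exact hx
    exact absurd hmin (not_le.mpr hlt)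
  -- counting
  set A := univ.filter (fun p => Bad (π a) (π p)) with hA
  set B := univ.filter (fun p => Bad (π (τ a)) (π (τ p))) with hB
  have hAc : A.card ≤ D := by
    refine le_trans ?_ (hD (π a))
    refine card_le_card_of_injOn π ?_ (π.injective.injOn)
    intro p hp
    simpa [hA] using hp
  have hBc : B.card ≤ D := by
    refine le_trans ?_ (hD (π (τ a)))
    refine card_le_card_of_injOn (fun p => π (τ p)) ?_ ?_
    · intro p hp
      simpa [hB] using hp
    · intro p _ q _ h
      have h1 : τ p = τ q := π.injective h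
      rw [← hτ p, h1, hτ]
  have hinter : 1 ≤ (A ∩ B).card := by
    rw [Nat.succ_le_iff, card_pos]
    refine ⟨τ a, ?_⟩
    simp only [hA, hB, mem_inter, mem_filter, mem_univ, true_and, hτ]
    exact ⟨ha, hs _ _ ha⟩
  have hun : (univ.erase a).card ≤ (A ∪ B).card := by
    apply card_le_card
    intro p hp
    have hpa : p ≠ a := by simpa using hp
    simp only [hA, hB, mem_union, mem_filter, mem_univ, true_and]
    exact hblock p hpa
  rw [card_erase_of_mem (mem_univ _), card_univ] at hun
  have := card_union_add_card_inter A B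
  omega

/-! ### Choosing the colouring and the order -/

/-- The relation: different and at distance at most two. -/
def Near {V : Type u} (G : SimpleGraph V) (x y : V) : Prop :=
  x ≠ y ∧ (G.Adj x y ∨ ∃ z, G.Adj x z ∧ G.Adj z y)

theorem near_symm {V : Type u} (G : SimpleGraph V) (x y : V) (h : Near G x y) : Near G y x := by
  obtain ⟨h1, h2 | ⟨z, h3, h4⟩⟩ := h
  · exact ⟨h1.symm, Or.inl h2.symm⟩
  · exact ⟨h1.symm, Or.inr ⟨z, h4.symm, h3.symm⟩⟩

open Classical in
theorem near_card {V : Type u} [Fintype V] (G : SimpleGraph V) (D : ℕ)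
    (hD : ∀ x, (univ.filter (fun y => G.Adj x y)).card ≤ D) (x : V) :
    (univ.filter (fun y => Near G x y)).card ≤ D ^ 2 := by
  set N : V → Finset V := fun x => univ.filter (fun y => G.Adj x y) with hN
  have hsub : (univ.filter (fun y => Near G x y)) ⊆ N x ∪ (N x).biUnion (fun z => (N z).erase x) := by
    intro y hy
    simp only [mem_filter, mem_univ, true_and, Near] at hy
    obtain ⟨h1, h2 | ⟨z, h3, h4⟩⟩ := hy
    · simp [hN, h2]
    · rw [mem_union, mem_biUnion]
      right
      exact ⟨z, by simpa [hN] using h3, by simp [hN, h4, Ne.symm h1]⟩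
  refine le_trans (card_le_card hsub) (le_trans (card_union_le _ _) ?_)
  have hbi : ((N x).biUnion (fun z => (N z).erase x)).card ≤ (N x).card * (D - 1) := by
    apply card_biUnion_le_card_mul
    intro z hz
    have hxz : x ∈ N z := by
      simp only [hN, mem_filter, mem_univ, true_and] at hz ⊢
      exact hz.symm
    rw [card_erase_of_mem hxz]
    exact Nat.sub_le_sub_right (hD z) 1
  have hx := hD x
  change (N x).card ≤ D at hx
  rcases Nat.eq_zero_or_pos D with h0 | h0
  · subst h0
    have : (N x).card = 0 := by omega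
    rw [this] at hbi ⊢
    simp at hbi ⊢
    exact hbi
  · calc (N x).card + ((N x).biUnion (fun z => (N z).erase x)).card
        ≤ (N x).card + (N x).card * (D - 1) := by omega
      _ = (N x).card * D := by
          obtain ⟨d, rfl⟩ := Nat.exists_eq_add_of_le h0
          simp only [Nat.add_sub_cancel_left]
          ring
      _ ≤ D * D := Nat.mul_le_mul_right _ hx
      _ = D ^ 2 := by ring

/-- The colouring of the square of `G` with ordered colours. -/
theorem exists_colouring {V : Type u} [Fintype V] (G : SimpleGraph V) (D : ℕ)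
    (hD : ∀ x : V, ∀ S : Finset V, (∀ y ∈ S, G.Adj x y) → S.card ≤ D) :
    ∃ c : V → ℕ, (∀ v, c v < D ^ 2 + 1) ∧ (∀ x y, Near G x y → c x ≠ c y) ∧
      ∀ p, p % 2 = 1 → (∃ x, c x = p) → (∃ y, c y = p + 1) →
        ∃ x y, c x = p ∧ c y = p + 1 ∧ ¬ G.Adj x y := by
  classical
  have hD' : ∀ x, (univ.filter (fun y => G.Adj x y)).card ≤ D := by
    intro x
    exact hD x _ (by simp)
  obtain ⟨c, hc1, hc2⟩ := greedy (Near G) (near_symm G) (D ^ 2) (near_card G D hD')
    (fun x h => h.1 rfl)
  rcases Nat.lt_or_ge (2 * D) (D ^ 2 + 1) with hbig | hsmall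
  · -- the main case
    let K := D ^ 2 + 1
    let cf : V → Fin K := fun v => ⟨c v, hc1 v⟩
    let Bad : Fin K → Fin K → Prop := fun p q =>
      (∃ x, cf x = p) ∧ (∃ y, cf y = q) ∧ ∀ x y, cf x = p → cf y = q → G.Adj x y
    have hBs : ∀ p q, Bad p q → Bad q p := by
      rintro p q ⟨h1, h2, h3⟩
      exact ⟨h2, h1, fun x y hx hy => (h3 y x hy hx).symm⟩
    have hBi : ∀ p, ¬ Bad p p := by
      rintro p ⟨⟨x, hx⟩, _, h3⟩
      exact G.loopless.irrefl x (h3 x x hx hx)
    have hBD : ∀ p, (univ.filter (fun q => Bad p q)).card ≤ D := by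
      intro p
      by_cases hp : ∃ x, cf x = p
      · obtain ⟨x, hx⟩ := hp
        have hch : ∀ q, ∃ y, Bad p q → cf y = q ∧ G.Adj x y := by
          intro q
          by_cases hq : Bad p q
          · obtain ⟨_, ⟨y, hy⟩, h3⟩ := id hq
            exact ⟨y, fun _ => ⟨hy, h3 x y hx hy⟩⟩
          · exact ⟨x, fun h => absurd h hq⟩
        choose g hg using hch
        have : (univ.filter (fun q => Bad p q)).card ≤
            ((univ.filter (fun q => Bad p q)).image g).card := by
          apply le_of_eq
          symm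
          apply card_image_of_injOn
          intro q hq r hr h
          simp only [coe_filter, mem_univ, true_and, Set.mem_setOf_eq] at hq hr
          rw [← (hg q hq).1, h, (hg r hr).1]
        refine le_trans this (hD x _ ?_)
        intro y hy
        rw [mem_image] at hy
        obtain ⟨q, hq, rfl⟩ := hy
        simp only [mem_filter, mem_univ, true_and] at hq
        exact (hg q hq).2
      · have : univ.filter (fun q => Bad p q) = ∅ := by
          rw [filter_eq_empty_iff]
          intro q _ h
          exact hp h.1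
        rw [this]
        simp
    let τ' : ℕ → ℕ := fun p =>
      if p % 2 = 1 then (if p + 1 < K then p + 1 else p) else (if 2 ≤ p then p - 1 else p)
    have hτlt : ∀ p, p < K → τ' p < K := by
      intro p hp
      simp only [τ']
      split_ifs <;> omega
    have hττ : ∀ p, p < K → τ' (τ' p) = p := by
      intro p hp
      simp only [τ']
      split_ifs <;> omega
    let τ : Fin K → Fin K := fun p => ⟨τ' p.1, hτlt p.1 p.2⟩
    have hτ : ∀ p, τ (τ p) = p := by
      intro p
      apply Fin.ext
      exact hττ p.1 p.2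
    obtain ⟨π, hπ⟩ := exists_perm τ hτ Bad hBs hBi D hBD (by simpa [K] using hbig)
    refine ⟨fun v => (π.symm (cf v)).1, fun v => (π.symm (cf v)).2, ?_, ?_⟩
    · intro x y hxy h
      have h1 : π.symm (cf x) = π.symm (cf y) := Fin.ext h
      have h2 : cf x = cf y := π.symm.injective h1
      exact hc2 x y hxy (congrArg Fin.val h2)
    · intro p hp hx hy
      obtain ⟨x, hx⟩ := hx
      obtain ⟨y, hy⟩ := hy
      by_contra hno
      push Not at hno
      have hp1 : p + 1 < K := by rw [← hy]; exact (π.symm (cf y)).2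
      have hp0 : p < K := by omega
      apply hπ ⟨p, hp0⟩
      have e1 : τ ⟨p, hp0⟩ = ⟨p + 1, hp1⟩ := by
        apply Fin.ext
        show τ' p = p + 1
        simp only [τ']
        rw [if_pos hp, if_pos hp1]
      rw [e1]
      refine ⟨⟨x, ?_⟩, ⟨y, ?_⟩, ?_⟩
      · rw [← Equiv.symm_apply_eq]; exact Fin.ext hx
      · rw [← Equiv.symm_apply_eq]; exact Fin.ext hy
      · intro x' y' hx' hy'
        apply hno x' y'
        · rw [hx']; simp
        · rw [hy']; simp
  · -- `D = 1`: only two colours
    have hD1 : D = 1 := by nlinarith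
    subst hD1
    refine ⟨c, hc1, hc2, ?_⟩
    intro p hp hx hy
    obtain ⟨y, hy⟩ := hy
    have := hc1 y
    omega

/-- The order of the vertices. -/
theorem exists_order {V : Type u} [Fintype V] (G : SimpleGraph V) (D : ℕ)
    (hD : ∀ x : V, ∀ S : Finset V, (∀ y ∈ S, G.Adj x y) → S.card ≤ D) :
    ∃ (c e : V → ℕ), (∀ v, c v < D ^ 2 + 1) ∧ (∀ v, e v < Fintype.card V) ∧
      (∀ x y, Near G x y → c x ≠ c y) ∧ (∀ x y, e x = e y → x = y) ∧
      (∀ x y, c x < c y → e x < e y) ∧
      (∀ x y, c x % 2 = 1 → c y = c x + 1 → e y = e x + 1 → ¬ G.Adj x y) := by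
  classical
  obtain ⟨c, hc1, hc2, hc3⟩ := exists_colouring G D hD
  let e0 : V ≃ Fin (Fintype.card V) := Fintype.equivFin V
  have hch : ∀ p, ∀ v : V, ∃ q : V × V, (p % 2 = 1 → (∃ x, c x = p) → (∃ y, c y = p + 1) →
      c q.1 = p ∧ c q.2 = p + 1 ∧ ¬ G.Adj q.1 q.2) := by
    intro p v
    by_cases h : p % 2 = 1 ∧ (∃ x, c x = p) ∧ (∃ y, c y = p + 1)
    · obtain ⟨x, y, h1, h2, h3⟩ := hc3 p h.1 h.2.1 h.2.2
      exact ⟨(x, y), fun _ _ _ => ⟨h1, h2, h3⟩⟩
    · exact ⟨(v, v), fun h1 h2 h3 => absurd ⟨h1, h2, h3⟩ h⟩
  by_cases hV : Nonempty V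
  swap
  · rw [not_nonempty_iff] at hV
    exact ⟨c, fun _ => 0, hc1, fun v => (hV.false v).elim, hc2, fun v => (hV.false v).elim,
      fun v => (hV.false v).elim, fun v => (hV.false v).elim⟩
  obtain ⟨v0⟩ := hV
  have hch' : ∀ p, ∃ q : V × V, (p % 2 = 1 → (∃ x, c x = p) → (∃ y, c y = p + 1) →
      c q.1 = p ∧ c q.2 = p + 1 ∧ ¬ G.Adj q.1 q.2) := fun p => hch p v0
  choose q hq using hch'
  let key : V → ℕ := fun v =>
    if c v % 2 = 1 then (if v = (q (c v)).1 then Fintype.card V + 1 else (e0 v).1)
    else (if v = (q (c v - 1)).2 then 0 else (e0 v).1 + 1)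
  have hkey_inj : ∀ x y, c x = c y → key x = key y → x = y := by
    intro x y hxy h
    have hx := (e0 x).2
    have hy := (e0 y).2
    have hinj : (e0 x).1 = (e0 y).1 → x = y := fun h => e0.injective (Fin.ext h)
    simp only [key, hxy] at h
    split_ifs at h with h1 h2 h3 h4 h5 h6
    · exact h2.trans h3.symm
    · omega
    · omega
    · exact hinj h
    · exact h5.trans h6.symm
    · exact hinj (by omega)
  let lt : V → V → Prop := fun x y => c x < c y ∨ (c x = c y ∧ key x < key y)
  let e : V → ℕ := fun x => (univ.filter (fun u => lt u x)).card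
  have hmono : ∀ x y, lt x y → e x < e y := by
    intro x y hxy
    apply card_lt_card
    rw [Finset.ssubset_iff_of_subset]
    · refine ⟨x, by simpa using hxy, ?_⟩
      simp [lt]
    · intro u hu
      simp only [mem_filter, mem_univ, true_and, lt] at hu hxy ⊢
      omega
  have htri : ∀ x y, x ≠ y → lt x y ∨ lt y x := by
    intro x y hxy
    by_cases h : c x = c y
    · have : key x ≠ key y := fun h' => hxy (hkey_inj x y h h')
      simp only [lt]
      omega
    · simp only [lt]
      omega
  refine ⟨c, e, hc1, ?_, hc2, ?_, ?_, ?_⟩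
  · intro v
    have : (univ.filter (fun u => lt u v)).card < (univ : Finset V).card := by
      apply card_lt_card
      rw [Finset.ssubset_iff_of_subset (filter_subset _ _)]
      exact ⟨v, mem_univ _, by simp [lt]⟩
    rwa [card_univ] at this
  · intro x y h
    by_contra hxy
    rcases htri x y hxy with h1 | h1
    · have := hmono _ _ h1; omega
    · have := hmono _ _ h1; omega
  · intro x y h
    exact hmono x y (Or.inl h)
  · intro x y hx hy hxy
    obtain ⟨q1, q2, q3⟩ := hq (c x) hx ⟨x, rfl⟩ ⟨y, hy⟩
    set a := (q (c x)).1 with ha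
    set b := (q (c x)).2 with hb
    -- `x` is the last vertex of its class
    have hxa : x = a := by
      by_contra hne
      have h1 : lt x a := by
        right
        refine ⟨q1.symm, ?_⟩
        have hxn := (e0 x).2
        simp only [key]
        rw [if_pos hx, if_neg hne, q1, if_pos hx, if_pos ha]
        omega
      have h2 : lt a y := by
        left
        omega
      have := hmono _ _ h1
      have := hmono _ _ h2
      omega
    have hyb : y = b := by
      by_contra hne
      have hyo : ¬ (c y % 2 = 1) := by omega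
      have h1 : lt b y := by
        right
        refine ⟨by omega, ?_⟩
        have hbo : ¬ (c b % 2 = 1) := by omega
        simp only [key]
        rw [if_neg hyo, if_neg hbo, hy, q2, Nat.add_sub_cancel, if_neg hne, if_pos hb]
        omega
      have h2 : lt x b := by
        left
        omega
      have := hmono _ _ h1
      have := hmono _ _ h2
      omega
    rw [hxa, hyb]
    exact q3

/-! ### Distances -/

theorem common_of_dist {V : Type u} (G : SimpleGraph V) (a b : V) (h : G.dist a b = 2) :
    a ≠ b ∧ ∃ z, G.Adj a z ∧ G.Adj z b := by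
  have hne : a ≠ b := by
    rintro rfl
    simp at h
  refine ⟨hne, ?_⟩
  have hr : G.Reachable a b := by
    by_contra hr
    rw [SimpleGraph.dist_eq_zero_of_not_reachable hr] at h
    omega
  obtain ⟨p, hp⟩ := hr.exists_walk_length_eq_dist
  rw [h] at hp
  cases p with
  | nil => simp at hp
  | cons h1 p1 =>
    cases p1 with
    | nil => simp at hp
    | cons h2 p2 =>
      cases p2 with
      | nil => exact ⟨_, h1, h2⟩
      | cons h3 p3 => simp at hp

theorem dist_eq_two {V : Type u} (G : SimpleGraph V) (a b z : V) (hne : a ≠ b)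
    (hab : ¬ G.Adj a b) (h1 : G.Adj a z) (h2 : G.Adj z b) : G.dist a b = 2 := by
  have hle : G.dist a b ≤ 2 := by
    have := G.dist_le (SimpleGraph.Walk.cons h1 (SimpleGraph.Walk.cons h2 SimpleGraph.Walk.nil))
    simpa using this
  have hr : G.Reachable a b := ⟨SimpleGraph.Walk.cons h1 (SimpleGraph.Walk.cons h2 SimpleGraph.Walk.nil)⟩
  have h0 : G.dist a b ≠ 0 := by
    intro h0
    exact hne ((hr.dist_eq_zero_iff).mp h0)
  have h1' : G.dist a b ≠ 1 := by
    intro h1'
    exact hab (SimpleGraph.dist_eq_one_iff_adj.mp h1')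
  omega

/-! ### The labelling of `M(G)` -/

theorem base {V : Type u} [Fintype V] (G : SimpleGraph V) (D : ℕ)
    (hD : ∀ x : V, ∀ S : Finset V, (∀ y ∈ S, G.Adj x y) → S.card ≤ D) :
    ∃ f, IsL21 (myc G) (Fintype.card V + 1 + D ^ 2) f := by
  obtain ⟨c, e, hc, he, hcol, hinj, hmono, hj⟩ := exists_order G D hD
  have hmono' : ∀ x y, e x < e y → c x ≤ c y := by
    intro x y h
    by_contra h'
    have := hmono y x (by omega)
    omega
  have hadjne : ∀ x y, G.Adj x y → c x ≠ c y := fun x y h =>
    hcol x y ⟨G.ne_of_adj h, Or.inl h⟩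
  -- the basic inequality for adjacent vertices of `G`
  have hadj : ∀ x y, G.Adj x y → c x < c y →
      (e x + c x + 1 + c x % 2) + 2 ≤ e y + c y + 1 + c y % 2 := by
    intro x y h hlt
    have h1 := hmono x y hlt
    by_contra hcon
    exact hj x y (by omega) (by omega) (by omega) h
  let f : V ⊕ V ⊕ Unit → ℕ := fun a => match a with
    | Sum.inl x => e x + c x + 1 + c x % 2
    | Sum.inr (Sum.inl x) => e x + c x + 1 + (1 - c x % 2)
    | Sum.inr (Sum.inr _) => 0
  refine ⟨f, ?_, ?_, ?_⟩
  · rintro (x | x | x)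
    · have := hc x; have := he x
      show e x + c x + 1 + c x % 2 ≤ _
      omega
    · have := hc x; have := he x
      show e x + c x + 1 + (1 - c x % 2) ≤ _
      omega
    · exact Nat.zero_le _
  · rintro (x | x | x) (y | y | y) h
    · change G.Adj x y at h
      show (e x + c x + 1 + c x % 2) + 2 ≤ e y + c y + 1 + c y % 2 ∨
        (e y + c y + 1 + c y % 2) + 2 ≤ e x + c x + 1 + c x % 2
      rcases Nat.lt_or_gt_of_ne (hadjne x y h) with h1 | h1
      · exact Or.inl (hadj x y h h1)
      · exact Or.inr (hadj y x h.symm h1)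
    · change G.Adj x y at h
      show (e x + c x + 1 + c x % 2) + 2 ≤ e y + c y + 1 + (1 - c y % 2) ∨
        (e y + c y + 1 + (1 - c y % 2)) + 2 ≤ e x + c x + 1 + c x % 2
      rcases Nat.lt_or_gt_of_ne (hadjne x y h) with h1 | h1
      · have := hmono x y h1
        omega
      · have := hmono y x h1
        omega
    · exact absurd h (by simp [myc, mycAdj])
    · change G.Adj x y at h
      show (e x + c x + 1 + (1 - c x % 2)) + 2 ≤ e y + c y + 1 + c y % 2 ∨
        (e y + c y + 1 + c y % 2) + 2 ≤ e x + c x + 1 + (1 - c x % 2)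
      rcases Nat.lt_or_gt_of_ne (hadjne x y h) with h1 | h1
      · have := hmono x y h1
        omega
      · have := hmono y x h1
        omega
    · exact absurd h (by simp [myc, mycAdj])
    · show (e x + c x + 1 + (1 - c x % 2)) + 2 ≤ 0 ∨ 0 + 2 ≤ e x + c x + 1 + (1 - c x % 2)
      omega
    · exact absurd h (by simp [myc, mycAdj])
    · show 0 + 2 ≤ e y + c y + 1 + (1 - c y % 2) ∨ (e y + c y + 1 + (1 - c y % 2)) + 2 ≤ 0
      omega
    · exact absurd h (by simp [myc, mycAdj])
  · intro a b hab
    obtain ⟨hne, z, hz1, hz2⟩ := common_of_dist _ a b hab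
    rcases a with (x | x | x) <;> rcases b with (y | y | y)
    · have hxy : x ≠ y := fun h => hne (by rw [h])
      have hexy : e x ≠ e y := fun h => hxy (hinj x y h)
      show e x + c x + 1 + c x % 2 ≠ e y + c y + 1 + c y % 2
      rcases Nat.lt_or_gt_of_ne hexy with h1 | h1
      · have := hmono' x y h1
        omega
      · have := hmono' y x h1
        omega
    · show e x + c x + 1 + c x % 2 ≠ e y + c y + 1 + (1 - c y % 2)
      by_cases hxy : x = y
      · subst hxy
        omega
      · have hnear : Near G x y := by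
          refine ⟨hxy, Or.inr ?_⟩
          rcases z with (z | z | z)
          · exact ⟨z, hz1, hz2⟩
          · exact absurd hz2 (by simp [myc, mycAdj])
          · exact absurd hz1 (by simp [myc, mycAdj])
        rcases Nat.lt_or_gt_of_ne (hcol x y hnear) with h1 | h1
        · have := hmono x y h1
          omega
        · have := hmono y x h1
          omega
    · show e x + c x + 1 + c x % 2 ≠ 0
      omega
    · show e x + c x + 1 + (1 - c x % 2) ≠ e y + c y + 1 + c y % 2
      by_cases hxy : x = y
      · subst hxy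
        omega
      · have hnear : Near G x y := by
          refine ⟨hxy, Or.inr ?_⟩
          rcases z with (z | z | z)
          · exact ⟨z, hz1, hz2⟩
          · exact absurd hz1 (by simp [myc, mycAdj])
          · exact absurd hz2 (by simp [myc, mycAdj])
        rcases Nat.lt_or_gt_of_ne (hcol x y hnear) with h1 | h1
        · have := hmono x y h1
          omega
        · have := hmono y x h1
          omega
    · have hxy : x ≠ y := fun h => hne (by rw [h])
      have hexy : e x ≠ e y := fun h => hxy (hinj x y h)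
      show e x + c x + 1 + (1 - c x % 2) ≠ e y + c y + 1 + (1 - c y % 2)
      rcases Nat.lt_or_gt_of_ne hexy with h1 | h1
      · have := hmono' x y h1
        omega
      · have := hmono' y x h1
        omega
    · show e x + c x + 1 + (1 - c x % 2) ≠ 0
      omega
    · show 0 ≠ e y + c y + 1 + c y % 2
      omega
    · show 0 ≠ e y + c y + 1 + (1 - c y % 2)
      omega
    · exact absurd rfl hne

/-! ### One more Mycielski step -/

theorem step {V : Type u} [Fintype V] (G : SimpleGraph V) (k : ℕ)
    (h : ∃ f, IsL21 G k f) : ∃ f, IsL21 (myc G) (k + Fintype.card V + 1) f := by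
  classical
  obtain ⟨g, hg1, hg2, hg3⟩ := h
  -- an enumeration starting with a vertex of label `k` if there is one
  obtain ⟨r, hr1, hr2, hr3⟩ : ∃ r : V → ℕ, (∀ v, r v < Fintype.card V) ∧
      (∀ u v, r u = r v → u = v) ∧ (∀ u v, G.Adj u v → r v = 0 → g u < k) := by
    let e0 : V ≃ Fin (Fintype.card V) := Fintype.equivFin V
    by_cases hk : ∃ v, g v = k
    · obtain ⟨v0, hv0⟩ := hk
      have hpos : 0 < Fintype.card V := Fintype.card_pos_iff.mpr ⟨v0⟩
      let e1 : V ≃ Fin (Fintype.card V) := e0.trans (Equiv.swap (e0 v0) ⟨0, hpos⟩)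
      refine ⟨fun v => (e1 v).1, fun v => (e1 v).2, fun u v h => e1.injective (Fin.ext h), ?_⟩
      intro u v huv hv
      have h1 : e1 v0 = ⟨0, hpos⟩ := by simp [e1]
      have h2 : v = v0 := by
        apply e1.injective
        rw [h1]
        exact Fin.ext hv
      subst h2
      rcases hg2 u v huv with h | h
      · omega
      · have := hg1 u
        omega
    · refine ⟨fun v => (e0 v).1, fun v => (e0 v).2, fun u v h => e0.injective (Fin.ext h), ?_⟩
      intro u v _ _
      have := hg1 u
      have : g u ≠ k := fun h => hk ⟨u, h⟩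
      omega
  let f : V ⊕ V ⊕ Unit → ℕ := fun a => match a with
    | Sum.inl x => g x + 1
    | Sum.inr (Sum.inl x) => k + 2 + r x
    | Sum.inr (Sum.inr _) => 0
  refine ⟨f, ?_, ?_, ?_⟩
  · rintro (x | x | x)
    · have := hg1 x
      show g x + 1 ≤ _
      omega
    · have := hr1 x
      show k + 2 + r x ≤ _
      omega
    · exact Nat.zero_le _
  · rintro (x | x | x) (y | y | y) h
    · change G.Adj x y at h
      show (g x + 1) + 2 ≤ g y + 1 ∨ (g y + 1) + 2 ≤ g x + 1
      have := hg2 x y h
      omega
    · change G.Adj x y at h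
      show (g x + 1) + 2 ≤ k + 2 + r y ∨ (k + 2 + r y) + 2 ≤ g x + 1
      have h1 := hr3 x y h
      have h2 := hg1 x
      left
      by_cases h0 : r y = 0
      · have := h1 h0
        omega
      · omega
    · exact absurd h (by simp [myc, mycAdj])
    · change G.Adj x y at h
      show (k + 2 + r x) + 2 ≤ g y + 1 ∨ (g y + 1) + 2 ≤ k + 2 + r x
      have h1 := hr3 y x h.symm
      have h2 := hg1 y
      right
      by_cases h0 : r x = 0
      · have := h1 h0
        omega
      · omega
    · exact absurd h (by simp [myc, mycAdj])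
    · show (k + 2 + r x) + 2 ≤ 0 ∨ 0 + 2 ≤ k + 2 + r x
      omega
    · exact absurd h (by simp [myc, mycAdj])
    · show 0 + 2 ≤ k + 2 + r y ∨ (k + 2 + r y) + 2 ≤ 0
      omega
    · exact absurd h (by simp [myc, mycAdj])
  · intro a b hab
    obtain ⟨hne, z, hz1, hz2⟩ := common_of_dist _ a b hab
    rcases a with (x | x | x) <;> rcases b with (y | y | y)
    · have hxy : x ≠ y := fun h => hne (by rw [h])
      show g x + 1 ≠ g y + 1
      by_cases hadj : G.Adj x y
      · have := hg2 x y hadj
        omega
      · have : ∃ z, G.Adj x z ∧ G.Adj z y := by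
          rcases z with (z | z | z)
          · exact ⟨z, hz1, hz2⟩
          · exact ⟨z, hz1, hz2⟩
          · exact absurd hz1 (by simp [myc, mycAdj])
        obtain ⟨z', h1, h2⟩ := this
        have := hg3 x y (dist_eq_two G x y z' hxy hadj h1 h2)
        omega
    · show g x + 1 ≠ k + 2 + r y
      have := hg1 x
      omega
    · show g x + 1 ≠ 0
      omega
    · show k + 2 + r x ≠ g y + 1
      have := hg1 y
      omega
    · have hxy : x ≠ y := fun h => hne (by rw [h])
      show k + 2 + r x ≠ k + 2 + r y
      have : r x ≠ r y := fun h => hxy (hr2 x y h)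
      omega
    · show k + 2 + r x ≠ 0
      omega
    · show 0 ≠ g y + 1
      omega
    · show 0 ≠ k + 2 + r y
      omega
    · exact absurd rfl hne

theorem iterate (H : Gr.{u}) [Fintype H.V] (D : ℕ)
    (hD : ∀ x : H.V, ∀ S : Finset H.V, (∀ y ∈ S, H.G.Adj x y) → S.card ≤ D) (t : ℕ) :
    ∃ (F : Fintype (iter H (t + 1)).V), @Fintype.card _ F + 1 = 2 ^ (t + 1) * (Fintype.card H.V + 1) ∧
      ∃ f, IsL21 (iter H (t + 1)).G ((2 ^ (t + 1) - 1) * (Fintype.card H.V + 1) + D ^ 2) f := by
  induction t with
  | zero =>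
    refine ⟨(inferInstance : Fintype (H.V ⊕ H.V ⊕ Unit)), ?_, ?_⟩
    · show Fintype.card (H.V ⊕ H.V ⊕ Unit) + 1 = _
      simp only [Fintype.card_sum, Fintype.card_unit]
      ring
    · have := base H.G D hD
      simpa [iter] using this
  | succ t ih =>
    obtain ⟨F, hF, hf⟩ := ih
    letI := F
    refine ⟨(inferInstance : Fintype ((iter H (t + 1)).V ⊕ (iter H (t + 1)).V ⊕ Unit)), ?_, ?_⟩
    · show Fintype.card ((iter H (t + 1)).V ⊕ (iter H (t + 1)).V ⊕ Unit) + 1 = _
      simp only [Fintype.card_sum, Fintype.card_unit]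
      have : Fintype.card (iter H (t + 1)).V + (Fintype.card (iter H (t + 1)).V + 1) + 1 =
          2 * (Fintype.card (iter H (t + 1)).V + 1) := by ring
      rw [this, hF]
      ring
    · have h2 := step (iter H (t + 1)).G _ hf
      have e1 : (2 ^ (t + 1) - 1) * (Fintype.card H.V + 1) + D ^ 2 +
          Fintype.card (iter H (t + 1)).V + 1 =
          (2 ^ (t + 1 + 1) - 1) * (Fintype.card H.V + 1) + D ^ 2 := by
        have h3 : (2 ^ (t + 1) - 1) * (Fintype.card H.V + 1) + 2 ^ (t + 1) * (Fintype.card H.V + 1)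
            = (2 ^ (t + 1 + 1) - 1) * (Fintype.card H.V + 1) := by
          rw [← Nat.add_mul]
          congr 1
          have : 1 ≤ 2 ^ (t + 1) := Nat.one_le_two_pow
          rw [pow_succ 2 (t + 1)]
          omega
        rw [← h3, ← hF]
        ring
      rw [e1] at h2
      exact h2

/-- **Q1 of MP_f0917b_co is true**: for every finite simple graph `G` of order `n` and maximum
degree `Δ` and every `t ≥ 1`, `λ(M^t(G)) ≤ (2^t - 1)(n + 1) + Δ²`. -/
theorem result (V : Type u) [Fintype V] (G : SimpleGraph V) [DecidableRel G.Adj] (t : ℕ)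
    (ht : 1 ≤ t) :
    lam (iter ⟨V, G⟩ t).G ≤ (2 ^ t - 1) * (Fintype.card V + 1) + G.maxDegree ^ 2 := by
  obtain ⟨s, rfl⟩ : ∃ s, t = s + 1 := ⟨t - 1, by omega⟩
  have hD : ∀ x : V, ∀ S : Finset V, (∀ y ∈ S, G.Adj x y) → S.card ≤ G.maxDegree := by
    intro x S hS
    refine le_trans ?_ (G.degree_le_maxDegree x)
    rw [← SimpleGraph.card_neighborFinset_eq_degree]
    apply card_le_card
    intro y hy
    rw [SimpleGraph.mem_neighborFinset]
    exact hS y hy
  obtain ⟨F, hF, hf⟩ := @iterate ⟨V, G⟩ _ G.maxDegree hD s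
  exact Nat.sInf_le hf

end Pool.Agent.Results.MP_f0917b_co.IteratedMycielski
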